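import Pool.Agent.H32.N6H.Targets

/-!
Row PLN: the discriminant of a section does not vanish, and its degree.
-/

set_option autoImplicit false

open Polynomial Matrix NumberField IsDedekindDomain Pool.Agent.H32.QC Pool.Agent.H34.N6
open Pool.Agent.H32.N6H

namespace Pool.Agent.H26.N6H

/-- over an algebraically closed field -/
theorem pln_closed (hEIG : T_EIG) (hFRM : T_FRM) (hDFC : T_DFC) (hSDM : T_SDM)
    (E : Type) [Field E] [IsAlgClosed E] (n : ℕ)
    (A B : Matrix (Fin (n + 1)) (Fin (n + 1)) E) (l : Fin (n + 1) → E) (h : SD A B) (hl : l ≠ 0) :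
    pl A B l ≠ 0 ∧ (pl A B l).natDegree ≤ n := by
  obtain ⟨t, k, ht, h1, h2, h3, h4⟩ := hEIG E (n + 1) A B h
  have hdet : B.det ≠ 0 := (hSDM E E (RingHom.id E) (n + 1) A B).2.1 h
  have hfac := hDFC E (n + 1) A B t k hdet h4 h1
  have hfrm := hFRM E (n + 1) A B t k h.sA h.sB hdet hfac h1 h2
  -- the images of the eigenvectors are a basis
  have hker : LinearMap.ker (Matrix.mulVecLin B) = ⊥ := by
    rw [LinearMap.ker_eq_bot']
    intro x hx
    have hx' : B *ᵥ x = 0 := hx
    by_contra hne
    exact hdet (Matrix.exists_mulVec_eq_zero_iff.mp ⟨x, hne, hx'⟩)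
  have hli : LinearIndependent E (fun i => B *ᵥ k i) := h4.map' (Matrix.mulVecLin B) hker
  have hcard : Fintype.card (Fin (n + 1)) = Module.finrank E (Fin (n + 1) → E) := by simp
  obtain ⟨y, hy⟩ : ∃ y : Fin (n + 1) → E, l = ∑ i, y i • (B *ᵥ k i) := by
    let b := basisOfLinearIndependentOfCardEqFinrank hli hcard
    refine ⟨fun i => b.repr l i, ?_⟩
    have h5 := b.sum_repr l
    have h6 : ∀ i, b i = B *ᵥ k i := fun i => by
      show (basisOfLinearIndependentOfCardEqFinrank hli hcard) i = B *ᵥ k i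
      rw [coe_basisOfLinearIndependentOfCardEqFinrank]
    conv_lhs => rw [← h5]
    exact Finset.sum_congr rfl fun i _ => by rw [h6 i]
  obtain ⟨i, hi⟩ : ∃ i, y i ≠ 0 := by
    by_contra hcon
    refine hl ?_
    rw [hy]
    refine Finset.sum_eq_zero fun i _ => ?_
    have : y i = 0 := by
      by_contra h0
      exact hcon ⟨i, h0⟩
    rw [this, zero_smul]
  have hpl := hfrm y
  rw [← hy] at hpl
  rw [hpl]
  constructor
  · intro h0
    have h5 := congrArg (eval (t i)) h0
    rw [eval_mul, eval_C, eval_finsetSum, eval_zero, Finset.sum_eq_single i] at h5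
    · rw [eval_mul, eval_C, eval_prod] at h5
      have h6 : ∏ j ∈ Finset.univ.erase i, eval (t i) (C (t j) - X) ≠ 0 := by
        refine Finset.prod_ne_zero_iff.mpr fun j hj => ?_
        rw [eval_sub, eval_C, eval_X, sub_ne_zero]
        exact fun he => (Finset.ne_of_mem_erase hj) (ht he)
      exact mul_ne_zero hdet (mul_ne_zero (mul_ne_zero (pow_ne_zero 2 hi) (h3 i)) h6) h5
    · intro m _ hm
      rw [eval_mul, eval_prod]
      have h6 : ∏ j ∈ Finset.univ.erase m, eval (t i) (C (t j) - X) = 0 := by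
        refine Finset.prod_eq_zero (Finset.mem_erase.mpr ⟨hm.symm, Finset.mem_univ i⟩) ?_
        rw [eval_sub, eval_C, eval_X, sub_self]
      rw [h6, mul_zero]
    · intro hi'
      exact absurd (Finset.mem_univ i) hi'
  · refine (natDegree_C_mul_le _ _).trans ?_
    refine natDegree_sum_le_of_forall_le _ _ fun m _ => ?_
    refine (natDegree_C_mul_le _ _).trans ?_
    refine (natDegree_prod_le _ _).trans ?_
    refine (Finset.sum_le_sum (g := fun _ => 1) fun j _ => ?_).trans ?_
    · have h5 : (C (t j) - X : E[X]).natDegree ≤ max (C (t j) : E[X]).natDegree (X : E[X]).natDegree :=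
        natDegree_sub_le _ _
      rw [natDegree_C, natDegree_X] at h5
      exact h5
    · rw [Finset.sum_const, smul_eq_mul, mul_one, Finset.card_erase_of_mem (Finset.mem_univ m),
        Finset.card_univ, Fintype.card_fin]
      exact le_of_eq (Nat.add_sub_cancel n 1)

theorem pf_PLN (hEIG : T_EIG) (hFRM : T_FRM) (hDFC : T_DFC) (hGDM : T_GDM) (hSDM : T_SDM) :
    T_PLN := by
  intro F _ n A B l h hl
  obtain ⟨φ, hφ⟩ : ∃ φ : F →+* AlgebraicClosure F, φ = algebraMap F (AlgebraicClosure F) :=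
    ⟨_, rfl⟩
  have h1 : SD (A.map φ) (B.map φ) := (hSDM F (AlgebraicClosure F) φ (n + 1) A B).1.mp h
  have h2 := (hGDM F (AlgebraicClosure F) φ n A B l).2.1
  have hl' : (fun i => φ (l i)) ≠ 0 := by
    intro h0
    refine hl ?_
    funext i
    have h3 := congrFun h0 i
    simp only [Pi.zero_apply, map_eq_zero] at h3
    exact h3
  obtain ⟨h3, h4⟩ := pln_closed hEIG hFRM hDFC hSDM (AlgebraicClosure F) n (A.map φ) (B.map φ)
    (fun i => φ (l i)) h1 hl'
  rw [h2] at h3 h4
  rw [natDegree_map] at h4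
  refine ⟨fun h0 => h3 ?_, h4⟩
  rw [h0, Polynomial.map_zero]

end Pool.Agent.H26.N6H
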